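import Mathlib

/-!
# The form of the Alexander polynomial of an L-space knot
-/

open Polynomial

namespace Pool.Agent.Lib.MP_bdaa83_gt

/-- The form of the normalized Alexander polynomial of an L-space knot (Ozsvath-Szabo):
`1 - t ^ n₁ + t ^ n₂ - ... + t ^ n₂ₘ` with `0 < n₁ < n₂ < ... < n₂ₘ`. -/
def IsLSpaceForm (f : ℤ[X]) : Prop :=
  ∃ (m : ℕ) (n : ℕ → ℕ), StrictMono n ∧ n 0 = 0 ∧
    f = ∑ k ∈ Finset.range (2 * m + 1), (-1) ^ k * X ^ n k

/-- A product of finitely many cyclotomic polynomials (with repetitions allowed). -/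
def IsProductOfCyclotomics (f : ℤ[X]) : Prop :=
  ∃ s : Multiset ℕ, (∀ d ∈ s, 0 < d) ∧ f = (s.map fun d => cyclotomic d ℤ).prod

end Pool.Agent.Lib.MP_bdaa83_gt
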