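import Pool.Agent.Lib.MP_bdaa83_gt.Defs

/-!
# Alexander polynomials of periodic and freely periodic L-space knots: the algebra

Let `D` be the Alexander polynomial of an L-space knot `K` of period `q = p ^ r`, let `g` be the
Alexander polynomial of the quotient knot and `l` the linking number of the quotient knot with the
quotient axis. Murasugi's congruence says `D = g ^ q (1 + t + ... + t ^ (l - 1)) ^ (q - 1)` modulo
`p`. The partial sums of the coefficients of `D` are all `0` or `1`, so `D` is determined by its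
reduction modulo `p`; comparing partial sums gives `D(t) = f(t ^ q) T(t)`, where `T` is the Alexander
polynomial of the torus knot `T(q, l)` and `f` is again of L-space form and congruent to `g`.
If `f = g` then, as `g` divides `D`, the set of roots of `g` that are not roots of unity is closed
under the `q`-th power, so it is empty.
-/

open Polynomial

namespace Pool.Agent.Lib.MP_bdaa83_gt

/-- Partial sums of the coefficients. -/
def psum (f : ℤ[X]) (k : ℕ) : ℤ := ∑ j ∈ Finset.range (k + 1), f.coeff j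

theorem psum_zero (f : ℤ[X]) : psum f 0 = f.coeff 0 := by simp [psum]

theorem psum_succ (f : ℤ[X]) (k : ℕ) : psum f (k + 1) = psum f k + f.coeff (k + 1) := by
  simp [psum, Finset.sum_range_succ]

theorem psum_eventually (f : ℤ[X]) (k : ℕ) (h : f.natDegree ≤ k) : psum f k = f.eval 1 := by
  rw [psum, eval_eq_sum_range' (n := k + 1) (by omega)]
  simp

theorem ext_psum {f g : ℤ[X]} (h : ∀ k, psum f k = psum g k) : f = g := by
  ext k
  cases k with
  | zero => rw [← psum_zero, ← psum_zero, h]
  | succ k =>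
    have h1 := psum_succ f k
    have h2 := psum_succ g k
    have := h k
    have := h (k + 1)
    linarith

theorem psum_add (f g : ℤ[X]) (k : ℕ) : psum (f + g) k = psum f k + psum g k := by
  simp [psum, Finset.sum_add_distrib]

theorem psum_sub (f g : ℤ[X]) (k : ℕ) : psum (f - g) k = psum f k - psum g k := by
  simp [psum, Finset.sum_sub_distrib]

theorem psum_X_pow (a k : ℕ) : psum (X ^ a : ℤ[X]) k = if a ≤ k then 1 else 0 := by
  simp only [psum, coeff_X_pow]
  rw [Finset.sum_ite_eq']
  simp

/-- The condition on partial sums. -/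
def PSumForm (f : ℤ[X]) : Prop :=
  (∀ k, psum f k = 0 ∨ psum f k = 1) ∧ f.coeff 0 = 1 ∧ f.eval 1 = 1

theorem psum_alt (n : ℕ → ℕ) (M k : ℕ) :
    psum (∑ j ∈ Finset.range M, (-1) ^ j * X ^ n j : ℤ[X]) k =
      ∑ j ∈ Finset.range M, (-1) ^ j * (if n j ≤ k then 1 else 0) := by
  induction M with
  | zero => simp [psum]
  | succ M ih =>
    rw [Finset.sum_range_succ, psum_add, ih, Finset.sum_range_succ]
    congr 1
    rcases Nat.even_or_odd M with hM | hM
    · rw [hM.neg_one_pow, hM.neg_one_pow, one_mul, one_mul, psum_X_pow]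
    · rw [hM.neg_one_pow, hM.neg_one_pow]
      have := psum_sub 0 (X ^ n M) k
      rw [zero_sub, psum_X_pow] at this
      rw [neg_one_mul, this]
      simp only [psum, coeff_zero, Finset.sum_const_zero, zero_sub]
      split_ifs <;> simp

theorem alt_sum_zero_or_one (n : ℕ → ℕ) (hn : StrictMono n) (M k : ℕ) :
    (∑ j ∈ Finset.range M, (-1 : ℤ) ^ j * (if n j ≤ k then 1 else 0) = 0) ∨
      (∑ j ∈ Finset.range M, (-1 : ℤ) ^ j * (if n j ≤ k then 1 else 0) = 1) := by
  induction M with
  | zero => simp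
  | succ M ih =>
    by_cases h : n M ≤ k
    · have : ∑ j ∈ Finset.range (M + 1), (-1 : ℤ) ^ j * (if n j ≤ k then 1 else 0) =
          ∑ j ∈ Finset.range (M + 1), (-1 : ℤ) ^ j := by
        refine Finset.sum_congr rfl fun j hj => ?_
        have : n j ≤ k := (hn.monotone (Finset.mem_range_succ_iff.mp hj)).trans h
        rw [if_pos this, mul_one]
      rw [this, neg_one_geom_sum]
      split_ifs <;> simp
    · rw [Finset.sum_range_succ, if_neg h, mul_zero, add_zero]
      exact ih

theorem PSumForm.of_isLSpaceForm {f : ℤ[X]} (h : IsLSpaceForm f) : PSumForm f := by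
  obtain ⟨m, n, hn, h0, rfl⟩ := h
  refine ⟨?_, ?_, ?_⟩
  · intro k
    rw [psum_alt]
    exact alt_sum_zero_or_one n hn _ k
  · rw [← psum_zero, psum_alt, Finset.sum_range_succ']
    rw [h0]
    simp only [pow_zero, le_refl, if_true, mul_one]
    rw [Finset.sum_eq_zero, zero_add]
    intro j _
    have : n 0 < n (j + 1) := hn (by omega)
    rw [if_neg (by omega), mul_zero]
  · simp only [eval_finsetSum, eval_mul, eval_pow, eval_neg, eval_one, eval_X, one_pow, mul_one]
    rw [neg_one_geom_sum, if_neg (by simp)]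

theorem PSumForm.isLSpaceForm_aux (N : ℕ) : ∀ f : ℤ[X], f.natDegree ≤ N → PSumForm f →
    ∃ (m : ℕ) (n : ℕ → ℕ), StrictMono n ∧ n 0 = 0 ∧ n (2 * m) = f.natDegree ∧
      f = ∑ k ∈ Finset.range (2 * m + 1), (-1) ^ k * X ^ n k := by
  induction N using Nat.strong_induction_on with
  | _ N ih =>
    intro f hf ⟨h1, h2, h3⟩
    by_cases hd : f.natDegree = 0
    · refine ⟨0, id, strictMono_id, rfl, by simp [hd], ?_⟩
      rw [eq_C_of_natDegree_eq_zero hd, h2]
      simp
    · obtain ⟨b, hb⟩ : ∃ b, f.natDegree = b + 1 := ⟨f.natDegree - 1, by omega⟩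
      have hf0 : f ≠ 0 := by rintro rfl; simp at hd
      have hlead : f.coeff (b + 1) ≠ 0 := by
        rw [← hb]; exact leadingCoeff_ne_zero.mpr hf0
      have hpb1 : psum f (b + 1) = 1 := by rw [psum_eventually f _ hb.le, h3]
      have hpb : psum f b = 0 := by
        have := psum_succ f b
        rcases h1 b with h | h
        · exact h
        · exfalso; apply hlead; rw [hpb1, h] at this; linarith
      -- the largest index `a` whose partial sum vanishes on `[a, b]`
      have hex : ∃ a, ∀ k, a ≤ k → k ≤ b → psum f k = 0 := ⟨b, fun k h h' => by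
        rw [le_antisymm h' h]; exact hpb⟩
      classical
      let a := Nat.find hex
      have ha : ∀ k, a ≤ k → k ≤ b → psum f k = 0 := Nat.find_spec hex
      have hab : a ≤ b := Nat.find_min' hex fun k h h' => by rw [le_antisymm h' h]; exact hpb
      have ha0 : a ≠ 0 := by
        intro h
        have := ha 0 (by omega) (by omega)
        rw [psum_zero, h2] at this
        exact one_ne_zero this
      obtain ⟨c, hc⟩ : ∃ c, a = c + 1 := ⟨a - 1, by omega⟩
      have hpc : psum f c = 1 := by
        rcases h1 c with h | h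
        · exfalso
          have := Nat.find_min hex (m := c) (by change c < a; omega)
          apply this
          intro k hk hk'
          rcases hk.eq_or_lt with h' | h'
          · rw [← h']; exact h
          · exact ha k (by omega) hk'
        · exact h
      set g : ℤ[X] := f + X ^ a - X ^ (b + 1) with hg
      have hgp : ∀ k, psum g k = psum f k + (if a ≤ k then 1 else 0) - (if b + 1 ≤ k then 1 else 0) := by
        intro k
        rw [hg, psum_sub, psum_add, psum_X_pow, psum_X_pow]
      have hg1 : ∀ k, c ≤ k → psum g k = 1 := by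
        intro k hk
        rw [hgp]
        by_cases h4 : b + 1 ≤ k
        · rw [if_pos (by omega), if_pos h4, psum_eventually f k (by omega), h3]; ring
        · by_cases h5 : a ≤ k
          · rw [if_pos h5, if_neg h4, ha k h5 (by omega)]; ring
          · rw [if_neg h5, if_neg h4]
            have : k = c := by omega
            rw [this, hpc]; ring
      have hgdeg : g.natDegree ≤ c := by
        rw [natDegree_le_iff_coeff_eq_zero]
        intro k hk
        obtain ⟨k', rfl⟩ : ∃ k', k = k' + 1 := ⟨k - 1, by omega⟩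
        have := psum_succ g k'
        rw [hg1 k' (by omega), hg1 (k' + 1) (by omega)] at this
        linarith
      have hgform : PSumForm g := by
        refine ⟨?_, ?_, ?_⟩
        · intro k
          by_cases hk : c ≤ k
          · right; exact hg1 k hk
          · rw [hgp, if_neg (by omega), if_neg (by omega)]
            simpa using h1 k
        · rw [← psum_zero, hgp, if_neg (by omega), if_neg (by omega), psum_zero, h2]; ring
        · rw [hg]; simp [h3]
      obtain ⟨m, n, hn, hn0, hnm, hgn⟩ := ih c (by omega) g hgdeg hgform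
      refine ⟨m + 1, fun k => if k ≤ 2 * m then n k else if k = 2 * m + 1 then a else b + 1 + (k - (2 * m + 2)), ?_, ?_, ?_, ?_⟩
      · apply strictMono_nat_of_lt_succ
        intro k
        by_cases h4 : k + 1 ≤ 2 * m
        · simp only [if_pos h4, if_pos (show k ≤ 2 * m by omega)]
          exact hn (by omega)
        · by_cases h5 : k = 2 * m
          · subst h5
            simp only [le_refl, if_true, if_neg (show ¬ 2 * m + 1 ≤ 2 * m by omega)]
            rw [hnm]; omega
          · by_cases h6 : k = 2 * m + 1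
            · subst h6
              simp only [if_neg (show ¬ 2 * m + 1 ≤ 2 * m by omega), if_true,
                if_neg (show ¬ 2 * m + 1 + 1 ≤ 2 * m by omega),
                if_neg (show ¬ 2 * m + 1 + 1 = 2 * m + 1 by omega)]
              omega
            · simp only [if_neg (show ¬ k ≤ 2 * m by omega), if_neg h6,
                if_neg (show ¬ k + 1 ≤ 2 * m by omega),
                if_neg (show ¬ k + 1 = 2 * m + 1 by omega)]
              omega
      · simp [hn0]
      · simp only [if_neg (show ¬ 2 * (m + 1) ≤ 2 * m by omega),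
          if_neg (show ¬ 2 * (m + 1) = 2 * m + 1 by omega)]
        omega
      · have hfg : f = g - X ^ a + X ^ (b + 1) := by rw [hg]; ring
        rw [show 2 * (m + 1) + 1 = 2 * m + 1 + 1 + 1 by ring, Finset.sum_range_succ,
          Finset.sum_range_succ]
        have e1 : ∑ k ∈ Finset.range (2 * m + 1), (-1 : ℤ[X]) ^ k *
            X ^ (if k ≤ 2 * m then n k else if k = 2 * m + 1 then a else b + 1 + (k - (2 * m + 2))) =
            ∑ k ∈ Finset.range (2 * m + 1), (-1 : ℤ[X]) ^ k * X ^ n k := by
          refine Finset.sum_congr rfl fun k hk => ?_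
          rw [if_pos (by have := Finset.mem_range.mp hk; omega)]
        rw [e1, ← hgn]
        simp only [if_neg (show ¬ 2 * m + 1 ≤ 2 * m by omega), if_true,
          if_neg (show ¬ 2 * m + 1 + 1 ≤ 2 * m by omega),
          if_neg (show ¬ 2 * m + 1 + 1 = 2 * m + 1 by omega)]
        rw [show (-1 : ℤ[X]) ^ (2 * m + 1) = -1 by rw [pow_succ, pow_mul]; simp,
          show (-1 : ℤ[X]) ^ (2 * m + 1 + 1) = 1 by rw [pow_succ, pow_succ, pow_mul]; simp]
        rw [hfg]
        simp only [show 2 * m + 1 + 1 - (2 * m + 2) = 0 by omega, add_zero]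
        ring

theorem isLSpaceForm_iff (f : ℤ[X]) : IsLSpaceForm f ↔ PSumForm f := by
  constructor
  · exact PSumForm.of_isLSpaceForm
  · intro h
    obtain ⟨m, n, hn, hn0, -, hf⟩ := PSumForm.isLSpaceForm_aux _ f le_rfl h
    exact ⟨m, n, hn, hn0, hf⟩

/-! ### Products of cyclotomic polynomials -/

/-- A monic integer polynomial, all of whose complex roots are roots of unity, is a product of
cyclotomic polynomials. -/
theorem prod_cyclotomic_of_roots (N : ℕ) : ∀ f : ℤ[X], f.natDegree ≤ N → f.Monic →
    (∀ z : ℂ, aeval z f = 0 → ∃ k : ℕ, 0 < k ∧ z ^ k = 1) →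
    IsProductOfCyclotomics f := by
  induction N using Nat.strong_induction_on with
  | _ N ih =>
    intro f hf hmon hroots
    by_cases hd : f.natDegree = 0
    · exact ⟨0, by simp, by simpa using hmon.natDegree_eq_zero.mp hd⟩
    · have hdeg : (f.map (algebraMap ℤ ℂ)).degree ≠ 0 := by
        rw [hmon.degree_map]
        intro h
        exact hd (natDegree_eq_of_degree_eq_some h)
      obtain ⟨z, hz⟩ := IsAlgClosed.exists_root _ hdeg
      have hz' : aeval z f = 0 := by
        rw [IsRoot.def, eval_map_algebraMap] at hz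
        exact hz
      obtain ⟨k, hk, hzk⟩ := hroots z hz'
      have hfin : IsOfFinOrder z := isOfFinOrder_iff_pow_eq_one.mpr ⟨k, hk, hzk⟩
      have hpos : 0 < orderOf z := hfin.orderOf_pos
      have hprim : IsPrimitiveRoot z (orderOf z) := IsPrimitiveRoot.orderOf z
      have hmin := cyclotomic_eq_minpoly hprim hpos
      have hint : IsIntegral ℤ z := hprim.isIntegral hpos
      have hdvd : cyclotomic (orderOf z) ℤ ∣ f := by
        rw [hmin]
        exact minpoly.isIntegrallyClosed_dvd hint hz'
      obtain ⟨h, rfl⟩ := hdvd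
      have hcm := cyclotomic.monic (orderOf z) ℤ
      have hhm : h.Monic := by
        rw [Monic, leadingCoeff_mul, hcm.leadingCoeff, one_mul] at hmon
        exact hmon
      have hdd : (cyclotomic (orderOf z) ℤ * h).natDegree =
          (cyclotomic (orderOf z) ℤ).natDegree + h.natDegree := hcm.natDegree_mul hhm
      have hpd : 0 < (cyclotomic (orderOf z) ℤ).natDegree := by
        rw [natDegree_cyclotomic]
        exact Nat.totient_pos.mpr hpos
      obtain ⟨s, hs, hs'⟩ := ih (N - 1) (by omega) h (by omega) hhm (by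
        intro w hw
        apply hroots w
        simp [hw])
      refine ⟨orderOf z ::ₘ s, ?_, ?_⟩
      · intro d hd
        rcases Multiset.mem_cons.mp hd with h | h
        · rw [h]; exact hpos
        · exact hs d h
      · rw [Multiset.map_cons, Multiset.prod_cons, ← hs']

/-- If the set of roots of `g` that are not roots of unity is closed under the `n`-th power, it is
empty. -/
theorem roots_of_unity_of_closed (g : ℤ[X]) (h0 : g.coeff 0 ≠ 0) (n : ℕ) (hn : 2 ≤ n)
    (hcl : ∀ z : ℂ, aeval z g = 0 → (¬ ∃ k : ℕ, 0 < k ∧ z ^ k = 1) → aeval (z ^ n) g = 0)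
    (z : ℂ) (hz : aeval z g = 0) : ∃ k : ℕ, 0 < k ∧ z ^ k = 1 := by
  by_contra hcon
  have hg : g ≠ 0 := by rintro rfl; simp at h0
  have hz0 : z ≠ 0 := by
    rintro rfl
    apply h0
    have : aeval (0 : ℂ) g = (g.coeff 0 : ℂ) := by
      rw [aeval_def, eval₂_at_zero]; simp
    rw [this] at hz
    exact_mod_cast hz
  have hroot : ∀ j : ℕ, aeval (z ^ n ^ j) g = 0 := by
    intro j
    induction j with
    | zero => simpa using hz
    | succ j ih =>
      rw [pow_succ, pow_mul]
      apply hcl _ ih
      rintro ⟨k, hk, hk'⟩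
      apply hcon
      refine ⟨n ^ j * k, by positivity, ?_⟩
      rw [pow_mul, hk']
  have hmaps : ∀ j : ℕ, z ^ n ^ j ∈ (g.map (algebraMap ℤ ℂ)).roots.toFinset := by
    intro j
    rw [Multiset.mem_toFinset, mem_roots', IsRoot.def, eval_map_algebraMap]
    exact ⟨by
      rw [Ne, Polynomial.map_eq_zero_iff (algebraMap ℤ ℂ).injective_int]
      exact hg, hroot j⟩
  have hninj : ¬ Function.Injective (fun j : ℕ => z ^ n ^ j) := by
    intro hinj
    have := Set.infinite_range_of_injective hinj
    exact this ((g.map (algebraMap ℤ ℂ)).roots.toFinset.finite_toSet.subset (by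
      rintro _ ⟨j, rfl⟩
      exact hmaps j))
  rw [Function.Injective] at hninj
  push Not at hninj
  obtain ⟨i, j, hij, hne⟩ := hninj
  wlog hlt : i < j generalizing i j
  · exact this j i hij.symm (Ne.symm hne) (by omega)
  apply hcon
  have hlt' : n ^ i < n ^ j := Nat.pow_lt_pow_right (by omega) hlt
  refine ⟨n ^ j - n ^ i, by omega, ?_⟩
  have h1 : z ^ n ^ i * z ^ (n ^ j - n ^ i) = z ^ n ^ i * 1 := by
    rw [← pow_add, mul_one]
    rw [show n ^ i + (n ^ j - n ^ i) = n ^ j by omega]
    exact hij.symm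
  exact mul_left_cancel₀ (pow_ne_zero _ hz0) h1

/-! ### Partial sums as power series -/

section PS

variable {R : Type} [CommRing R]

/-- The generating function of the partial sums of the coefficients of `f`. -/
noncomputable def ps (f : R[X]) : PowerSeries R :=
  PowerSeries.mk fun k => ∑ j ∈ Finset.range (k + 1), f.coeff j

/-- The same with `X` replaced by `X ^ q`. -/
noncomputable def psq (q : ℕ) (f : R[X]) : PowerSeries R :=
  PowerSeries.mk fun k => if q ∣ k then ∑ j ∈ Finset.range (k / q + 1), f.coeff j else 0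

theorem ps_mul (f : R[X]) : ps f * (1 - PowerSeries.X) = (f : PowerSeries R) := by
  ext k
  rw [mul_sub, mul_one, map_sub]
  cases k with
  | zero => simp [ps]
  | succ k =>
    rw [PowerSeries.coeff_succ_mul_X, ps, PowerSeries.coeff_mk, PowerSeries.coeff_mk,
      Finset.sum_range_succ, Polynomial.coeff_coe]
    ring

theorem psq_mul (q : ℕ) (hq : 0 < q) (f : R[X]) :
    psq q f * (1 - PowerSeries.X ^ q) = ((expand R q f : R[X]) : PowerSeries R) := by
  ext k
  rw [mul_sub, mul_one, map_sub, PowerSeries.coeff_mul_X_pow', Polynomial.coeff_coe,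
    coeff_expand hq, psq, PowerSeries.coeff_mk]
  by_cases hk : q ∣ k
  · obtain ⟨j, rfl⟩ := hk
    rw [if_pos (dvd_mul_right q j), if_pos (dvd_mul_right q j), Nat.mul_div_cancel_left _ hq]
    cases j with
    | zero => simp; omega
    | succ j =>
      rw [if_pos (Nat.le_mul_of_pos_right q (Nat.succ_pos j)), PowerSeries.coeff_mk,
        if_pos ⟨j, by rw [Nat.mul_succ]; omega⟩, Finset.sum_range_succ]
      have : (q * (j + 1) - q) / q = j := by
        rw [Nat.mul_succ, Nat.add_sub_cancel, Nat.mul_div_cancel_left _ hq]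
      rw [this]
      ring
  · rw [if_neg hk, if_neg hk]
    split_ifs with h
    · rw [PowerSeries.coeff_mk, if_neg, sub_zero]
      intro h2
      apply hk
      have := (Nat.dvd_add_right (dvd_refl q)).mpr h2
      rwa [Nat.add_sub_cancel' h] at this
    · simp

theorem coeff_psq_mul (q l : ℕ) (f : R[X]) (k : ℕ) :
    PowerSeries.coeff k (psq q f * ∑ i ∈ Finset.range q, PowerSeries.X ^ (l * i)) =
      ∑ i ∈ Finset.range q, if l * i ≤ k ∧ q ∣ k - l * i then
        ∑ j ∈ Finset.range ((k - l * i) / q + 1), f.coeff j else 0 := by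
  rw [Finset.mul_sum, map_sum]
  refine Finset.sum_congr rfl fun i _ => ?_
  rw [PowerSeries.coeff_mul_X_pow', psq, PowerSeries.coeff_mk]
  by_cases h1 : l * i ≤ k <;> by_cases h2 : q ∣ k - l * i <;> simp [h1, h2]

/-- At `k = q j + l i` only one term contributes. -/
theorem coeff_psq_mul_eq (q l : ℕ) (hcop : Nat.Coprime q l) (f : R[X]) (j i : ℕ)
    (hi : i < q) :
    PowerSeries.coeff (q * j + l * i) (psq q f * ∑ i ∈ Finset.range q, PowerSeries.X ^ (l * i)) =
      ∑ j ∈ Finset.range (j + 1), f.coeff j := by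
  rw [coeff_psq_mul, Finset.sum_eq_single i]
  · rw [if_pos ⟨by omega, by rw [Nat.add_sub_cancel]; exact dvd_mul_right q j⟩,
      Nat.add_sub_cancel, Nat.mul_div_cancel_left _ (by omega)]
  · intro i' hi' hne
    rw [if_neg]
    rintro ⟨h1, h2⟩
    apply hne
    have hi'' := Finset.mem_range.mp hi'
    have h3 : q * j + l * i ≡ l * i' [MOD q] := ((Nat.modEq_iff_dvd' h1).mpr h2).symm
    have h4 : l * i ≡ l * i' [MOD q] := by
      have h5 : q * j + l * i ≡ 0 + l * i [MOD q] :=
        Nat.ModEq.add_right _ (Nat.modEq_zero_iff_dvd.mpr (dvd_mul_right q j))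
      rw [zero_add] at h5
      exact h5.symm.trans h3
    have h6 := Nat.ModEq.cancel_left_of_coprime hcop h4
    exact (Nat.ModEq.eq_of_lt_of_lt h6 hi hi'').symm
  · intro h
    exact absurd (Finset.mem_range.mpr hi) h

/-- At the other `k` the coefficient vanishes. -/
theorem coeff_psq_mul_eq_zero (q l : ℕ) (f : R[X]) (k : ℕ)
    (hk : ∀ j i, i < q → k ≠ q * j + l * i) :
    PowerSeries.coeff k (psq q f * ∑ i ∈ Finset.range q, PowerSeries.X ^ (l * i)) = 0 := by
  rw [coeff_psq_mul]
  refine Finset.sum_eq_zero fun i hi => ?_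
  rw [if_neg]
  rintro ⟨h1, j, h2⟩
  exact hk j i (Finset.mem_range.mp hi) (by omega)

theorem sum_X_pow_mul (q l : ℕ) :
    (∑ i ∈ Finset.range q, (X : R[X]) ^ (l * i)) * (X ^ l - 1) = X ^ (q * l) - 1 := by
  have := geom_sum_mul (X ^ l : R[X]) q
  simp only [← pow_mul] at this
  rw [this, mul_comm l q]

end PS

/-! ### Existence of a polynomial with given partial sums -/

theorem exists_psum (c : ℕ → ℤ) (N : ℕ) (hc : ∀ k, N ≤ k → c k = c N) :
    ∃ f : ℤ[X], ∀ k, psum f k = c k := by
  let d : ℕ → ℤ := fun k => if k = 0 then c 0 else c k - c (k - 1)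
  have hd : ∀ k, N < k → d k = 0 := by
    intro k hk
    simp only [d]
    rw [if_neg (by omega), hc k (by omega), hc (k - 1) (by omega), sub_self]
  refine ⟨∑ j ∈ Finset.range (N + 1), C (d j) * X ^ j, ?_⟩
  have hcoeff : ∀ k, (∑ j ∈ Finset.range (N + 1), C (d j) * X ^ j : ℤ[X]).coeff k = d k := by
    intro k
    rw [finsetSum_coeff]
    simp only [coeff_C_mul_X_pow]
    rw [Finset.sum_ite_eq]
    split_ifs with h
    · rfl
    · rw [hd k (by have := mt Finset.mem_range.mpr h; omega)]
  intro k
  induction k with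
  | zero => rw [psum_zero, hcoeff]; simp [d]
  | succ k ih =>
    rw [psum_succ, ih, hcoeff]
    simp [d]

/-! ### The theorem for periodic knots -/

section Periodic

variable {p : ℕ} [hp : Fact p.Prime]

theorem zero_one_eq {a b : ℤ} (ha : a = 0 ∨ a = 1) (hb : b = 0 ∨ b = 1)
    (h : (a : ZMod p) = (b : ZMod p)) : a = b := by
  rcases ha with rfl | rfl <;> rcases hb with rfl | rfl
  · rfl
  · simp at h
  · simp at h
  · rfl

theorem cast_psum (f : ℤ[X]) (k : ℕ) : ((psum f k : ℤ) : ZMod p) =
    ∑ j ∈ Finset.range (k + 1), (f.map (Int.castRingHom (ZMod p))).coeff j := by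
  simp [psum]

theorem expand_pow (r : ℕ) (f : (ZMod p)[X]) : expand (ZMod p) (p ^ r) f = f ^ p ^ r := by
  induction r with
  | zero => simp
  | succ r ih => rw [pow_succ, ← expand_expand, ZMod.expand_card, map_pow, ih, ← pow_mul]

theorem geom_identity (r l : ℕ) (hl : 0 < l) :
    (∑ i ∈ Finset.range l, (X : (ZMod p)[X]) ^ i) ^ (p ^ r - 1) * (1 - X ^ p ^ r) =
      (∑ i ∈ Finset.range (p ^ r), X ^ (l * i)) * (1 - X) := by
  have hq : 0 < p ^ r := pow_pos hp.out.pos r
  set A : (ZMod p)[X] := ∑ i ∈ Finset.range l, X ^ i with hA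
  have hA1 : A * (X - 1) = X ^ l - 1 := geom_sum_mul X l
  have hA0 : A ≠ 0 := by
    intro h
    rw [h, zero_mul] at hA1
    have : (X ^ l - 1 : (ZMod p)[X]).Monic := monic_X_pow_sub_C 1 (by omega)
    exact this.ne_zero hA1.symm
  have h2 : A ^ p ^ r * (X ^ p ^ r - 1) = X ^ (p ^ r * l) - 1 := by
    have h3 : (X - 1 : (ZMod p)[X]) ^ p ^ r = X ^ p ^ r - 1 := by
      rw [sub_pow_char_pow, one_pow]
    have h4 : (X ^ l - 1 : (ZMod p)[X]) ^ p ^ r = X ^ (p ^ r * l) - 1 := by
      rw [sub_pow_char_pow, one_pow, ← pow_mul, mul_comm l]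
    rw [← h3, ← mul_pow, hA1, h4]
  have h5 := sum_X_pow_mul (R := ZMod p) (p ^ r) l
  rw [← h2, ← hA1] at h5
  have h6 : A ^ p ^ r = A ^ (p ^ r - 1) * A := by
    rw [← pow_succ, Nat.sub_add_cancel hq]
  rw [h6] at h5
  have h7 : A * ((∑ i ∈ Finset.range (p ^ r), (X : (ZMod p)[X]) ^ (l * i)) * (1 - X)) =
      A * (A ^ (p ^ r - 1) * (1 - X ^ p ^ r)) := by
    linear_combination -h5
  exact (mul_left_cancel₀ hA0 h7).symm

theorem ps_eq (r l : ℕ) (hl : 0 < l) (D g : (ZMod p)[X])
    (hM : D = g ^ p ^ r * (∑ i ∈ Finset.range l, X ^ i) ^ (p ^ r - 1)) :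
    ps D = psq (p ^ r) g * ∑ i ∈ Finset.range (p ^ r), PowerSeries.X ^ (l * i) := by
  have hq : 0 < p ^ r := pow_pos hp.out.pos r
  have h1 : (1 - PowerSeries.X : PowerSeries (ZMod p)) ≠ 0 := by
    intro h
    have := congrArg (PowerSeries.coeff 0) h
    simp at this
  apply mul_right_cancel₀ h1
  rw [ps_mul, mul_assoc]
  have h2 := congrArg (fun f : (ZMod p)[X] => (f : PowerSeries (ZMod p)))
    (geom_identity (p := p) r l hl)
  simp only [Polynomial.coe_mul, Polynomial.coe_sub, Polynomial.coe_one, Polynomial.coe_pow,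
    Polynomial.coe_X] at h2
  have h3 : ((∑ i ∈ Finset.range (p ^ r), X ^ (l * i) : (ZMod p)[X]) : PowerSeries (ZMod p)) =
      ∑ i ∈ Finset.range (p ^ r), PowerSeries.X ^ (l * i) := by
    rw [← Polynomial.coeToPowerSeries.ringHom_apply, map_sum]
    simp
  rw [h3] at h2
  rw [← h2, mul_comm (_ ^ (p ^ r - 1)) _, ← mul_assoc, psq_mul _ hq, expand_pow, hM,
    Polynomial.coe_mul, Polynomial.coe_pow, Polynomial.coe_pow]

/-- The structure theorem: the polynomial of the knot is that of a formal cable. -/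
theorem structure_theorem (r l : ℕ) (hl : 0 < l) (hcop : Nat.Coprime p l) (D g : ℤ[X])
    (hD : IsLSpaceForm D)
    (hM : D.map (Int.castRingHom (ZMod p)) = (g.map (Int.castRingHom (ZMod p))) ^ p ^ r *
      (∑ i ∈ Finset.range l, X ^ i) ^ (p ^ r - 1)) :
    ∃ f : ℤ[X], IsLSpaceForm f ∧
      f.map (Int.castRingHom (ZMod p)) = g.map (Int.castRingHom (ZMod p)) ∧
      D * ((X ^ p ^ r - 1) * (X ^ l - 1)) =
        expand ℤ (p ^ r) f * ((X ^ (p ^ r * l) - 1) * (X - 1)) := by
  have hq : 0 < p ^ r := pow_pos hp.out.pos r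
  have hcop' : Nat.Coprime (p ^ r) l := Nat.Coprime.pow_left r hcop
  rw [isLSpaceForm_iff] at hD
  have hps := ps_eq r l hl _ _ hM
  have hcoeff : ∀ k, ((psum D k : ℤ) : ZMod p) = PowerSeries.coeff k
      (psq (p ^ r) (g.map (Int.castRingHom (ZMod p))) *
        ∑ i ∈ Finset.range (p ^ r), PowerSeries.X ^ (l * i)) := by
    intro k
    rw [← hps, cast_psum, ps, PowerSeries.coeff_mk]
  have h1 : ∀ j i, i < p ^ r → ((psum D (p ^ r * j + l * i) : ℤ) : ZMod p) =
      ∑ j ∈ Finset.range (j + 1), (g.map (Int.castRingHom (ZMod p))).coeff j := by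
    intro j i hi
    rw [hcoeff, coeff_psq_mul_eq _ _ hcop' _ _ _ hi]
  have h2 : ∀ j i, i < p ^ r → psum D (p ^ r * j + l * i) = psum D (p ^ r * j) := by
    intro j i hi
    apply zero_one_eq (p := p) (hD.1 _) (hD.1 _)
    have := h1 j 0 hq
    rw [mul_zero, add_zero] at this
    rw [h1 j i hi, this]
  have h3 : ∀ k, (∀ j i, i < p ^ r → k ≠ p ^ r * j + l * i) → psum D k = 0 := by
    intro k hk
    apply zero_one_eq (p := p) (hD.1 _) (Or.inl rfl)
    rw [hcoeff, coeff_psq_mul_eq_zero _ _ _ _ hk]
    simp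
  obtain ⟨f, hf⟩ := exists_psum (fun j => psum D (p ^ r * j)) D.natDegree (by
    intro k hk
    have h4 : D.natDegree ≤ p ^ r * D.natDegree := Nat.le_mul_of_pos_left _ hq
    have h5 : p ^ r * D.natDegree ≤ p ^ r * k := Nat.mul_le_mul_left _ hk
    rw [psum_eventually D _ (h4.trans h5), psum_eventually D _ h4])
  refine ⟨f, ?_, ?_, ?_⟩
  · rw [isLSpaceForm_iff]
    refine ⟨fun k => by rw [hf]; exact hD.1 _, ?_, ?_⟩
    · rw [← psum_zero, hf, mul_zero, psum_zero, hD.2.1]
    · have h4 : D.natDegree ≤ p ^ r * (max f.natDegree D.natDegree) :=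
        (le_max_right _ _).trans (Nat.le_mul_of_pos_left _ hq)
      rw [← psum_eventually f (max f.natDegree D.natDegree) (le_max_left _ _), hf,
        psum_eventually D _ h4, hD.2.2]
  · have h4 : ps (f.map (Int.castRingHom (ZMod p))) = ps (g.map (Int.castRingHom (ZMod p))) := by
      ext k
      rw [ps, ps, PowerSeries.coeff_mk, PowerSeries.coeff_mk, ← cast_psum, hf]
      have := h1 k 0 hq
      rwa [mul_zero, add_zero] at this
    have h5 := congrArg (fun s => s * (1 - PowerSeries.X)) h4
    simp only [ps_mul] at h5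
    exact Polynomial.coe_injective _ h5
  · have h4 : ps D = psq (p ^ r) f * ∑ i ∈ Finset.range (p ^ r), PowerSeries.X ^ (l * i) := by
      ext k
      rw [ps, PowerSeries.coeff_mk]
      by_cases hk : ∀ j i, i < p ^ r → k ≠ p ^ r * j + l * i
      · rw [coeff_psq_mul_eq_zero _ _ _ _ hk]
        exact h3 k hk
      · push Not at hk
        obtain ⟨j, i, hi, rfl⟩ := hk
        rw [coeff_psq_mul_eq _ _ hcop' _ _ _ hi]
        change psum D _ = psum f j
        rw [h2 j i hi, hf]
    have h5 : (D : PowerSeries ℤ) * (1 - PowerSeries.X ^ p ^ r) =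
        ((expand ℤ (p ^ r) f : ℤ[X]) : PowerSeries ℤ) *
          ((∑ i ∈ Finset.range (p ^ r), PowerSeries.X ^ (l * i)) * (1 - PowerSeries.X)) := by
      rw [← ps_mul D, h4, ← psq_mul _ hq]
      ring
    have h6 : D * (1 - X ^ p ^ r) = expand ℤ (p ^ r) f *
        ((∑ i ∈ Finset.range (p ^ r), X ^ (l * i)) * (1 - X)) := by
      apply Polynomial.coe_injective
      have h3 : ((∑ i ∈ Finset.range (p ^ r), X ^ (l * i) : ℤ[X]) : PowerSeries ℤ) =
          ∑ i ∈ Finset.range (p ^ r), PowerSeries.X ^ (l * i) := by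
        rw [← Polynomial.coeToPowerSeries.ringHom_apply, map_sum]
        simp
      simp only [Polynomial.coe_mul, Polynomial.coe_sub, Polynomial.coe_one, Polynomial.coe_pow,
        Polynomial.coe_X, h3]
      exact h5
    have h7 := sum_X_pow_mul (R := ℤ) (p ^ r) l
    linear_combination (-(X ^ l - 1 : ℤ[X])) * h6 +
      (expand ℤ (p ^ r) f * (X - 1)) * h7

theorem IsLSpaceForm.monic {f : ℤ[X]} (h : IsLSpaceForm f) : f.Monic := by
  rw [isLSpaceForm_iff] at h
  obtain ⟨h1, h2, h3⟩ := h
  rw [Monic, leadingCoeff]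
  cases hd : f.natDegree with
  | zero => exact h2
  | succ b =>
    have hf0 : f ≠ 0 := by rintro rfl; simp at h2
    have hlead : f.coeff (b + 1) ≠ 0 := by
      rw [← hd]; exact leadingCoeff_ne_zero.mpr hf0
    have h4 := psum_succ f b
    rw [psum_eventually f (b + 1) hd.le, h3] at h4
    rcases h1 b with h | h
    · rw [h] at h4; linarith
    · exfalso; apply hlead; rw [h] at h4; linarith

theorem IsLSpaceForm.coeff_zero {f : ℤ[X]} (h : IsLSpaceForm f) : f.coeff 0 = 1 :=
  ((isLSpaceForm_iff f).mp h).2.1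

/-- Two polynomials of L-space form which agree modulo `p` are equal. -/
theorem IsLSpaceForm.eq_of_map_eq {f g : ℤ[X]} (hf : IsLSpaceForm f) (hg : IsLSpaceForm g)
    (h : f.map (Int.castRingHom (ZMod p)) = g.map (Int.castRingHom (ZMod p))) : f = g := by
  rw [isLSpaceForm_iff] at hf hg
  apply ext_psum
  intro k
  apply zero_one_eq (p := p) (hf.1 k) (hg.1 k)
  rw [cast_psum, cast_psum, h]

/-- The common last step: if the polynomial of the knot is the one of a formal cable of a divisor
`f`, then it is a product of cyclotomic polynomials. -/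
theorem cyclotomic_core (q l : ℕ) (hq2 : 2 ≤ q) (hl : 0 < l) (D f : ℤ[X]) (hD : D.Monic)
    (hf : f.coeff 0 ≠ 0) (hdvd : f ∣ D)
    (heq : D * ((X ^ q - 1) * (X ^ l - 1)) = expand ℤ q f * ((X ^ (q * l) - 1) * (X - 1))) :
    IsProductOfCyclotomics D := by
  have hq : 0 < q := by omega
  have hev : ∀ z : ℂ, aeval z D * ((z ^ q - 1) * (z ^ l - 1)) =
      aeval (z ^ q) f * ((z ^ (q * l) - 1) * (z - 1)) := by
    intro z
    have := congrArg (aeval z) heq
    simpa [expand_aeval] using this
  have hgroots : ∀ z : ℂ, aeval z f = 0 → ∃ k : ℕ, 0 < k ∧ z ^ k = 1 := by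
    apply roots_of_unity_of_closed f hf q hq2
    intro z hz hcon
    have h1 : aeval z D = 0 := by
      obtain ⟨h, rfl⟩ := hdvd
      simp [hz]
    have h2 := hev z
    rw [h1, zero_mul] at h2
    rcases mul_eq_zero.mp h2.symm with h3 | h3
    · exact h3
    · exfalso
      apply hcon
      rcases mul_eq_zero.mp h3 with h4 | h4
      · exact ⟨q * l, by positivity, sub_eq_zero.mp h4⟩
      · exact ⟨1, one_pos, by rw [pow_one]; exact sub_eq_zero.mp h4⟩
  apply prod_cyclotomic_of_roots _ D le_rfl hD
  intro z hz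
  have h2 := hev z
  rw [hz, zero_mul] at h2
  rcases mul_eq_zero.mp h2.symm with h3 | h3
  · obtain ⟨k, hk, hk'⟩ := hgroots _ h3
    exact ⟨q * k, by positivity, by rw [pow_mul, hk']⟩
  · rcases mul_eq_zero.mp h3 with h4 | h4
    · exact ⟨q * l, by positivity, sub_eq_zero.mp h4⟩
    · exact ⟨1, one_pos, by rw [pow_one]; exact sub_eq_zero.mp h4⟩

/-- If moreover the polynomial `g` of the quotient knot is of L-space form and divides the
polynomial `D` of the knot, then `D` is a product of cyclotomic polynomials. -/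
theorem cyclotomic_of_periodic (r l : ℕ) (hr : 0 < r) (hl : 0 < l) (hcop : Nat.Coprime p l)
    (D g : ℤ[X]) (hD : IsLSpaceForm D) (hg : IsLSpaceForm g) (hdvd : g ∣ D)
    (hM : D.map (Int.castRingHom (ZMod p)) = (g.map (Int.castRingHom (ZMod p))) ^ p ^ r *
      (∑ i ∈ Finset.range l, X ^ i) ^ (p ^ r - 1)) :
    D * ((X ^ p ^ r - 1) * (X ^ l - 1)) = expand ℤ (p ^ r) g * ((X ^ (p ^ r * l) - 1) * (X - 1)) ∧
    IsProductOfCyclotomics D := by
  have hq2 : 2 ≤ p ^ r := by
    calc 2 ≤ p := hp.out.two_le
      _ = p ^ 1 := (pow_one p).symm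
      _ ≤ p ^ r := Nat.pow_le_pow_right hp.out.pos hr
  obtain ⟨f, hf, hfg, heq⟩ := structure_theorem r l hl hcop D g hD hM
  have hfg' : f = g := hf.eq_of_map_eq hg hfg
  subst hfg'
  exact ⟨heq, cyclotomic_core _ l hq2 hl D f hD.monic (by rw [hf.coeff_zero]; exact one_ne_zero)
    hdvd heq⟩

/-- The roots of a polynomial of L-space form have absolute value less than `2`. -/
theorem IsLSpaceForm.norm_lt_two {f : ℤ[X]} (hf : IsLSpaceForm f) (z : ℂ) (hz : aeval z f = 0) :
    ‖z‖ < 2 := by
  have hmon := hf.monic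
  rw [isLSpaceForm_iff] at hf
  have hcoeff : ∀ k, |f.coeff k| ≤ 1 := by
    intro k
    cases k with
    | zero => rw [hf.2.1]; simp
    | succ k =>
      have h1 := psum_succ f k
      rcases hf.1 k with h | h <;> rcases hf.1 (k + 1) with h' | h' <;>
        rw [h, h'] at h1 <;> rw [abs_le] <;> constructor <;> linarith
  have hroot : IsRoot (f.map (algebraMap ℤ ℂ)) z := by
    rw [IsRoot.def, eval_map_algebraMap]; exact hz
  have hne : f.map (algebraMap ℤ ℂ) ≠ 0 := (hmon.map _).ne_zero
  have hlt := hroot.norm_lt_cauchyBound hne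
  have hle : (cauchyBound (f.map (algebraMap ℤ ℂ)) : ℝ) ≤ 2 := by
    have : cauchyBound (f.map (algebraMap ℤ ℂ)) ≤ 2 := by
      rw [cauchyBound, (hmon.map (algebraMap ℤ ℂ)).leadingCoeff]
      simp only [nnnorm_one, div_one]
      have h3 : (Finset.range (f.map (algebraMap ℤ ℂ)).natDegree).sup
          (fun x => ‖(f.map (algebraMap ℤ ℂ)).coeff x‖₊) ≤ 1 := by
        apply Finset.sup_le
        intro k _
        rw [coeff_map]
        have h4 := hcoeff k
        rw [← NNReal.coe_le_coe, coe_nnnorm]
        simp only [algebraMap_int_eq, eq_intCast, NNReal.coe_one]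
        rw [Complex.norm_intCast]
        exact_mod_cast h4
      calc _ ≤ (1 : NNReal) + 1 := by gcongr
        _ = 2 := by norm_num
    exact_mod_cast this
  exact (NNReal.coe_lt_coe.mpr hlt).trans_le hle

/-- If the prime `p` is large compared with the degree of the polynomial `g` of the quotient knot,
then `D` is a product of cyclotomic polynomials, whatever the coefficients of `g` are. -/
theorem cyclotomic_of_large_period (r l : ℕ) (hr : 0 < r) (hl : 0 < l) (hcop : Nat.Coprime p l)
    (D g : ℤ[X]) (hD : IsLSpaceForm D) (hdvd : g ∣ D) (hlarge : 2 ^ (g.natDegree + 1) + 1 < p)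
    (hM : D.map (Int.castRingHom (ZMod p)) = (g.map (Int.castRingHom (ZMod p))) ^ p ^ r *
      (∑ i ∈ Finset.range l, X ^ i) ^ (p ^ r - 1)) :
    D * ((X ^ p ^ r - 1) * (X ^ l - 1)) = expand ℤ (p ^ r) g * ((X ^ (p ^ r * l) - 1) * (X - 1)) ∧
    IsProductOfCyclotomics D := by
  have hq2 : 2 ≤ p ^ r := by
    calc 2 ≤ p := hp.out.two_le
      _ = p ^ 1 := (pow_one p).symm
      _ ≤ p ^ r := Nat.pow_le_pow_right hp.out.pos hr
  have hq : 0 < p ^ r := by omega
  have hpq : p ≤ p ^ r := by
    calc p = p ^ 1 := (pow_one p).symm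
      _ ≤ p ^ r := Nat.pow_le_pow_right hp.out.pos hr
  obtain ⟨f, hf, hfg, heq⟩ := structure_theorem r l hl hcop D g hD hM
  have hDm := hD.monic
  -- `g` is monic
  have hgu : g.leadingCoeff = 1 ∨ g.leadingCoeff = -1 := by
    obtain ⟨h, hh⟩ := hdvd
    rw [hh, Monic, leadingCoeff_mul] at hDm
    exact Int.isUnit_iff.mp (IsUnit.of_mul_eq_one _ hDm)
  have hgm : g.Monic := by
    rcases hgu with h | h
    · exact h
    · exfalso
      have h1 : (g.map (Int.castRingHom (ZMod p))).leadingCoeff = -1 := by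
        rw [leadingCoeff_map_of_leadingCoeff_ne_zero]
        · rw [h]; simp
        · rw [h]; simp
      rw [← hfg, (hf.monic.map _).leadingCoeff] at h1
      have h2 : ((2 : ℕ) : ZMod p) = 0 := by
        push_cast
        linear_combination h1
      rw [ZMod.natCast_eq_zero_iff] at h2
      have := Nat.le_of_dvd (by norm_num) h2
      have h3 : 2 ≤ 2 ^ (g.natDegree + 1) := by
        calc 2 = 2 ^ 1 := by norm_num
          _ ≤ _ := Nat.pow_le_pow_right (by norm_num) (by omega)
      omega
  -- the roots of `g`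
  have hev : ∀ z : ℂ, aeval z D * ((z ^ p ^ r - 1) * (z ^ l - 1)) =
      aeval (z ^ p ^ r) f * ((z ^ (p ^ r * l) - 1) * (z - 1)) := by
    intro z
    have := congrArg (aeval z) heq
    simpa [expand_aeval] using this
  have hroots : ∀ z : ℂ, aeval z g = 0 → ‖z‖ ^ p ^ r ≤ 2 := by
    intro z hz
    have h1 : aeval z D = 0 := by
      obtain ⟨h, rfl⟩ := hdvd
      simp [hz]
    have h2 := hev z
    rw [h1, zero_mul] at h2
    rcases mul_eq_zero.mp h2.symm with h3 | h3
    · have := hf.norm_lt_two _ h3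
      rw [norm_pow] at this
      exact this.le
    · have h4 : ‖z‖ = 1 := by
        rcases mul_eq_zero.mp h3 with h4 | h4
        · have h5 := sub_eq_zero.mp h4
          exact Complex.norm_eq_one_of_pow_eq_one h5 (by positivity)
        · rw [sub_eq_zero.mp h4]; simp
      rw [h4]; norm_num
  set n := g.natDegree with hn
  have hnp : n ≤ p ^ r := by
    have : n < 2 ^ n := Nat.lt_two_pow_self
    have h2 : 2 ^ n ≤ 2 ^ (n + 1) := Nat.pow_le_pow_right (by norm_num) (by omega)
    omega
  set B : ℝ := (2 : ℝ) ^ ((p ^ r : ℕ) : ℝ)⁻¹ with hB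
  have hB1 : 1 ≤ B := Real.one_le_rpow (by norm_num) (by positivity)
  have hBq : B ^ p ^ r = 2 := Real.rpow_inv_natCast_pow (by norm_num) (by omega)
  have hzB : ∀ z : ℂ, aeval z g = 0 → ‖z‖ ≤ B := by
    intro z hz
    have h1 := hroots z hz
    rw [← hBq] at h1
    exact le_of_pow_le_pow_left₀ (by omega) (by positivity) h1
  have hcoeff : ∀ i, |(g.coeff i : ℝ)| ≤ 2 * n.choose i := by
    intro i
    have h1 := coeff_le_of_roots_le (p := g) (f := algebraMap ℤ ℂ) (B := B) i hgm
      (IsAlgClosed.splits _) (by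
        intro z hz
        rw [mem_roots', IsRoot.def, eval_map_algebraMap] at hz
        exact hzB z hz.2)
    have h2 : ‖(map (algebraMap ℤ ℂ) g).coeff i‖ = |(g.coeff i : ℝ)| := by
      rw [coeff_map]
      simp only [algebraMap_int_eq, eq_intCast]
      rw [Complex.norm_intCast]
    rw [h2] at h1
    refine h1.trans ?_
    have h3 : B ^ (n - i) ≤ 2 := by
      rw [← hBq]
      exact pow_le_pow_right₀ hB1 (by omega)
    exact mul_le_mul_of_nonneg_right h3 (by positivity)
  have hps : ∀ k, |(psum g k : ℝ)| ≤ 2 ^ (n + 1) := by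
    intro k
    rw [psum]
    push_cast
    calc |∑ j ∈ Finset.range (k + 1), (g.coeff j : ℝ)|
        ≤ ∑ j ∈ Finset.range (k + 1), |(g.coeff j : ℝ)| := Finset.abs_sum_le_sum_abs _ _
      _ ≤ ∑ j ∈ Finset.range (k + 1), 2 * (n.choose j : ℝ) :=
          Finset.sum_le_sum fun j _ => hcoeff j
      _ ≤ ∑ j ∈ Finset.range (max (k + 1) (n + 1)), 2 * (n.choose j : ℝ) :=
          Finset.sum_le_sum_of_subset_of_nonneg
            (Finset.range_subset_range.mpr (le_max_left _ _)) (fun _ _ _ => by positivity)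
      _ = ∑ j ∈ Finset.range (n + 1), 2 * (n.choose j : ℝ) := by
          symm
          apply Finset.sum_subset (Finset.range_subset_range.mpr (le_max_right _ _))
          intro j _ hj
          rw [Nat.choose_eq_zero_of_lt (by have := mt Finset.mem_range.mpr hj; omega)]
          simp
      _ = 2 ^ (n + 1) := by
          rw [← Finset.mul_sum, pow_succ']
          congr 1
          exact_mod_cast Nat.sum_range_choose n
  have hfg' : f = g := by
    apply ext_psum
    intro k
    have h1 : ((psum g k - psum f k : ℤ) : ZMod p) = 0 := by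
      push_cast
      rw [cast_psum, cast_psum, hfg, sub_self]
    rw [ZMod.intCast_zmod_eq_zero_iff_dvd] at h1
    have h2 : |psum g k| ≤ 2 ^ (n + 1) := by exact_mod_cast hps k
    have h3 : |psum g k - psum f k| < p := by
      have h4 := ((isLSpaceForm_iff f).mp hf).1 k
      have h5 : ((2 ^ (n + 1) + 1 : ℕ) : ℤ) < p := by exact_mod_cast hlarge
      push_cast at h5
      rw [abs_le] at h2
      rw [abs_lt]
      rcases h4 with h4 | h4 <;> rw [h4] <;> constructor <;> linarith [h2.1, h2.2]
    have h4 := Int.eq_zero_of_abs_lt_dvd h1 h3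
    linarith
  subst hfg'
  exact ⟨heq, cyclotomic_core _ l hq2 hl D f hD.monic (by rw [hf.coeff_zero]; exact one_ne_zero)
    hdvd heq⟩

/-! ### The theorem for freely periodic knots -/

theorem cyclotomic_of_free (r : ℕ) (hr : 0 < r) (D F : ℤ[X]) (hD : IsLSpaceForm D)
    (hF : IsLSpaceForm F) (w : ℂ) (hw : IsPrimitiveRoot w (p ^ r))
    (hH : ∀ z : ℂ, aeval (z ^ p ^ r) D = ∏ i ∈ Finset.range (p ^ r), aeval (w ^ i * z) F) :
    D = F ∧ IsProductOfCyclotomics D := by
  have hq : 0 < p ^ r := pow_pos hp.out.pos r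
  have hq2 : 2 ≤ p ^ r := by
    calc 2 ≤ p := hp.out.two_le
      _ = p ^ 1 := (pow_one p).symm
      _ ≤ p ^ r := Nat.pow_le_pow_right hp.out.pos hr
  -- the two ring homomorphisms
  obtain ⟨r', rfl⟩ : ∃ r', r = r' + 1 := ⟨r - 1, by omega⟩
  set q := p ^ (r' + 1) with hqdef
  let A := AdjoinRoot (cyclotomic q ℤ)
  let ζ : A := AdjoinRoot.root _
  have hwroot : eval₂ (Int.castRingHom ℂ) w (cyclotomic q ℤ) = 0 := by
    have h1 := hw.isRoot_cyclotomic hq
    rw [IsRoot.def] at h1
    rw [eval₂_eq_eval_map, map_cyclotomic]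
    exact h1
  let φ₁ : A →+* ℂ := AdjoinRoot.lift (Int.castRingHom ℂ) w hwroot
  let φ₂ : A →+* ZMod p := AdjoinRoot.lift (Int.castRingHom (ZMod p)) 1 (by
    rw [eval₂_eq_eval_map, map_cyclotomic, hqdef, eval_one_cyclotomic_prime_pow]
    simp)
  have hφ₁ : ∀ i : ℕ, φ₁ (ζ ^ i) = w ^ i := by
    intro i
    rw [map_pow]
    congr 1
    exact AdjoinRoot.lift_root hwroot
  have hφ₂ : ∀ i : ℕ, φ₂ (ζ ^ i) = 1 := by
    intro i
    rw [map_pow]
    have : φ₂ ζ = 1 := AdjoinRoot.lift_root _
    rw [this, one_pow]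
  have hc₁ : φ₁.comp (Int.castRingHom A) = Int.castRingHom ℂ := RingHom.ext_int _ _
  have hc₂ : φ₂.comp (Int.castRingHom A) = Int.castRingHom (ZMod p) := RingHom.ext_int _ _
  have hinj : Function.Injective φ₁ := by
    rw [injective_iff_map_eq_zero]
    intro a ha
    obtain ⟨h, rfl⟩ := AdjoinRoot.mk_surjective a
    have h1 : aeval w h = 0 := by
      have h2 : φ₁ (AdjoinRoot.mk _ h) = eval₂ (Int.castRingHom ℂ) w h := AdjoinRoot.lift_mk _ _
      rw [h2] at ha
      exact ha
    rw [AdjoinRoot.mk_eq_zero, cyclotomic_eq_minpoly hw hq]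
    exact minpoly.isIntegrallyClosed_dvd (hw.isIntegral hq) h1
  have hpoly : expand A q (D.map (Int.castRingHom A)) =
      ∏ i ∈ Finset.range q, (F.map (Int.castRingHom A)).comp (C (ζ ^ i) * X) := by
    apply Polynomial.map_injective φ₁ hinj
    apply Polynomial.funext
    intro z
    rw [map_expand, Polynomial.map_map, hc₁, expand_eval, Polynomial.map_prod, eval_prod]
    have h1 := hH z
    have h2 : eval (z ^ q) (D.map (Int.castRingHom ℂ)) = aeval (z ^ q) D := by
      rw [eval_map]; rfl
    rw [h2, h1]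
    refine Finset.prod_congr rfl fun i _ => ?_
    rw [Polynomial.map_comp, Polynomial.map_mul, Polynomial.map_map, hc₁, map_C, map_X, eval_comp,
      eval_mul, eval_C, eval_X, hφ₁, eval_map]
    rfl
  have hred := congrArg (Polynomial.map φ₂) hpoly
  have hDF : D = F := by
    apply hD.eq_of_map_eq (p := p) hF
    rw [map_expand, Polynomial.map_map, hc₂, Polynomial.map_prod] at hred
    have h3 : ∀ i ∈ Finset.range q, Polynomial.map φ₂
        ((F.map (Int.castRingHom A)).comp (C (ζ ^ i) * X)) = F.map (Int.castRingHom (ZMod p)) := by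
      intro i _
      rw [Polynomial.map_comp, Polynomial.map_mul, Polynomial.map_map, hc₂, map_C, map_X, hφ₂]
      simp
    rw [Finset.prod_congr rfl h3, Finset.prod_const, Finset.card_range, ← expand_pow] at hred
    exact expand_injective hq hred
  subst hDF
  refine ⟨rfl, ?_⟩
  apply prod_cyclotomic_of_roots _ D le_rfl hD.monic
  apply roots_of_unity_of_closed D (by rw [hD.coeff_zero]; exact one_ne_zero) q hq2
  intro z hz _
  rw [hH z]
  apply Finset.prod_eq_zero (Finset.mem_range.mpr hq)
  simpa using hz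

end Periodic

end Pool.Agent.Lib.MP_bdaa83_gt
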